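import Pool.Agent.H261R3.C1

set_option autoImplicit false

/-! # Parametric contraction of doubled families fails for every `k ≥ 2`

On the round unit two-sphere there is, for every `k ≥ 2`, a `k`-parameter family of closed curves
(parameter space: the projective plane times a cube) such that the doubled family deforms to a
family of points through curves of length less than `13`, while the family itself cannot be
deformed to a family of points at all, through closed curves of whatever length. -/

namespace Pool.Agent.Results.MP_49f0e1_gt.DoubledFamilies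

open Pool.Agent.H261R3

theorem result (k : ℕ) (_hk : 2 ≤ k) :
    ∃ γ : RP2 × (Fin (k - 2) → unitInterval) → ℝ → Sph,
      IsFamily γ ∧ IsC1Family γ ∧
      (∃ H : unitInterval → RP2 × (Fin (k - 2) → unitInterval) → ℝ → Sph,
        IsDeformation 13 (fun s => traverse 2 (γ s)) H ∧
        IsC1Family (fun x : unitInterval × (RP2 × (Fin (k - 2) → unitInterval)) => H x.1 x.2)) ∧
      ¬ ∃ H : unitInterval → RP2 × (Fin (k - 2) → unitInterval) → ℝ → Sph,
        IsHomotopyToPoints γ H := by
  refine ⟨fun s => Pool.Agent.H261R3.γ s.1, ⟨fun s => γ_family.curve s.1, ?_⟩,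
    ⟨fun s => γ_C1.1 s.1, ?_⟩, ⟨fun τ s => HD τ s.1, ?_, ⟨fun x => HD_C1.1 (x.1, x.2.1), ?_⟩⟩, ?_⟩
  · have h1 : Continuous (fun x : (RP2 × (Fin (k - 2) → unitInterval)) × unitInterval =>
        ((x.1.1, x.2) : RP2 × unitInterval)) := by fun_prop
    have h2 := γ_continuous.comp h1
    exact h2
  · have h1 : Continuous (fun x : (RP2 × (Fin (k - 2) → unitInterval)) × ℝ =>
        ((x.1.1, x.2) : RP2 × ℝ)) := by fun_prop
    have h2 := γ_C1.2.comp h1
    exact h2
  · have h1 : Continuous (fun x : unitInterval × (RP2 × (Fin (k - 2) → unitInterval)) × unitInterval =>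
        ((x.1, x.2.1.1, x.2.2) : unitInterval × RP2 × unitInterval)) := by fun_prop
    have h2 := HD_continuous.comp h1
    exact
      { continuous := h2
        closed := fun τ s => doubled_deformable.closed τ s.1
        start := fun s t ht => doubled_deformable.start s.1 t ht
        stop := fun s t ht => doubled_deformable.stop s.1 t ht
        curve := fun τ s => doubled_deformable.curve τ s.1
        short := fun τ s => doubled_deformable.short τ s.1 }
  · have h1 : Continuous (fun x : (unitInterval × (RP2 × (Fin (k - 2) → unitInterval))) × ℝ =>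
        (((x.1.1, x.1.2.1), x.2) : (unitInterval × RP2) × ℝ)) := by fun_prop
    have h2 := HD_C1.2.comp h1
    exact h2
  · rintro ⟨H, hH⟩
    refine not_homotopic (fun τ s => H τ (s, fun _ => 0)) ⟨?_, ?_, ?_, ?_⟩
    · have h1 : Continuous (fun x : unitInterval × RP2 × unitInterval =>
          ((x.1, (x.2.1, fun _ => 0), x.2.2) :
            unitInterval × (RP2 × (Fin (k - 2) → unitInterval)) × unitInterval)) := by fun_prop
      have h2 := hH.continuous.comp h1
      exact h2
    · intro τ s
      exact hH.closed τ _
    · intro s t ht
      exact hH.start (s, fun _ => 0) t ht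
    · intro s t ht
      exact hH.stop (s, fun _ => 0) t ht

end Pool.Agent.Results.MP_49f0e1_gt.DoubledFamilies
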